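import Mathlib
import Pool.Agent.H525.EX.Stm6

/-!
# Project EX (helper525), task ELD: the closed form `El` in terms of Jacobi symbols
-/

set_option autoImplicit false

namespace Pool.Agent.H981.EX

open Pool.Agent.H525.EX

/-- the symbol at `-2 ^ κ` for odd `d` -/
theorem eld_sym (κ d : ℕ) (hd : Odd d) :
    jacobiSym (-(2 : ℤ) ^ κ) d = jacobiSym (-1) d * (jacobiSym 2 d) ^ κ := by
  rw [jacobiSym.neg _ hd, jacobiSym.pow_left, jacobiSym.at_neg_one hd]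

theorem eld_m1 {d : ℕ} (hd : d % 4 = 1) : jacobiSym (-1) d = 1 := by
  rw [jacobiSym.at_neg_one (Nat.odd_iff.2 (by omega)), ZMod.χ₄_nat_one_mod_four hd]

theorem eld_m3 {d : ℕ} (hd : d % 4 = 3) : jacobiSym (-1) d = -1 := by
  rw [jacobiSym.at_neg_one (Nat.odd_iff.2 (by omega)), ZMod.χ₄_nat_three_mod_four hd]

/-- `ε ^ ((d - 1) / 4)` for `d ≡ 1` modulo `4` -/
theorem eld_one (κ : ℕ) {d : ℕ} (hd : d % 4 = 1) :
    ((jacobiSym (-(2 : ℤ) ^ κ) d : ℤ) : ℝ) = ((-1 : ℝ) ^ κ) ^ ((d - 1) / 4) := by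
  have ho : Odd d := Nat.odd_iff.2 (by omega)
  rw [eld_sym κ d ho, eld_m1 hd, jacobiSym.at_two ho, ZMod.χ₈_nat_eq_if_mod_eight,
    if_neg (by omega)]
  rcases (by omega : d % 8 = 1 ∨ d % 8 = 5) with h | h
  · have h1 : Even ((d - 1) / 4) := Nat.even_iff.2 (by omega)
    rw [if_pos (Or.inl h), ← pow_mul, mul_comm κ, pow_mul, h1.neg_one_pow]
    simp
  · have h1 : Odd ((d - 1) / 4) := Nat.odd_iff.2 (by omega)
    rw [if_neg (by omega), ← pow_mul, mul_comm κ, pow_mul, h1.neg_one_pow]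
    simp

/-- `-ε ^ ((d + 1) / 4)` for `d ≡ 3` modulo `4` -/
theorem eld_three (κ : ℕ) {d : ℕ} (hd : d % 4 = 3) :
    ((jacobiSym (-(2 : ℤ) ^ κ) d : ℤ) : ℝ) = -((-1 : ℝ) ^ κ) ^ ((d + 1) / 4) := by
  have ho : Odd d := Nat.odd_iff.2 (by omega)
  rw [eld_sym κ d ho, eld_m3 hd, jacobiSym.at_two ho, ZMod.χ₈_nat_eq_if_mod_eight,
    if_neg (by omega)]
  rcases (by omega : d % 8 = 7 ∨ d % 8 = 3) with h | h
  · have h1 : Even ((d + 1) / 4) := Nat.even_iff.2 (by omega)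
    rw [if_pos (Or.inr h), ← pow_mul, mul_comm κ, pow_mul, h1.neg_one_pow]
    simp
  · have h1 : Odd ((d + 1) / 4) := Nat.odd_iff.2 (by omega)
    rw [if_neg (by omega), ← pow_mul, mul_comm κ, pow_mul, h1.neg_one_pow]
    simp

/-- odd exponents -/
theorem eld_pow_odd (κ j e : ℕ) (he : e % 2 = 1) :
    (((-1 : ℝ) ^ κ) ^ j * Real.sqrt ((2 : ℝ) ^ κ)) ^ e =
      ((-1 : ℝ) ^ κ) ^ j * (Real.sqrt ((2 : ℝ) ^ κ) * ((2 : ℝ) ^ κ) ^ ((e - 1) / 2)) := by
  obtain ⟨k, hk⟩ : ∃ k, e = 2 * k + 1 := ⟨e / 2, by omega⟩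
  have h1 : (e - 1) / 2 = k := by omega
  have h2 : Real.sqrt ((2 : ℝ) ^ κ) ^ 2 = (2 : ℝ) ^ κ := Real.sq_sqrt (by positivity)
  have h3 : (((-1 : ℝ) ^ κ) ^ j) ^ 2 = 1 := by
    rw [← pow_mul, ← pow_mul, mul_comm, pow_mul]
    norm_num
  rw [h1, hk, mul_pow, pow_succ, pow_mul, h3, one_pow, one_mul, pow_succ, pow_mul, h2]
  ring

/-- even exponents -/
theorem eld_pow_even (κ j e : ℕ) :
    (((-1 : ℝ) ^ κ) ^ j * Real.sqrt ((2 : ℝ) ^ κ)) ^ (2 * e) = ((2 : ℝ) ^ κ) ^ e := by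
  have h2 : Real.sqrt ((2 : ℝ) ^ κ) ^ 2 = (2 : ℝ) ^ κ := Real.sq_sqrt (by positivity)
  have h3 : (((-1 : ℝ) ^ κ) ^ j) ^ 2 = 1 := by
    rw [← pow_mul, ← pow_mul, mul_comm, pow_mul]
    norm_num
  rw [mul_pow, pow_mul, h3, one_pow, one_mul, pow_mul, h2]

/-- the odd divisors of `2 n` -/
theorem eld_filter (n r : ℕ) (hr : r % 2 = 1) :
    (2 * n).divisors.filter (fun d => d % 4 = r) =
      (n.divisors.filter (fun d => d % 2 = 1)).filter (fun d => d % 4 = r) := by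
  ext d
  simp only [Finset.mem_filter, Nat.mem_divisors]
  constructor
  · rintro ⟨⟨h1, h2⟩, h3⟩
    have ho : d % 2 = 1 := by omega
    have hc : Nat.Coprime d 2 := (Nat.coprime_two_right (n := d)).2 (Nat.odd_iff.2 ho)
    exact ⟨⟨⟨hc.dvd_of_dvd_mul_left h1, by rintro rfl; exact h2 rfl⟩, ho⟩, h3⟩
  · rintro ⟨⟨⟨h1, h2⟩, -⟩, h3⟩
    exact ⟨⟨h1.mul_left 2, by omega⟩, h3⟩

theorem t_eld : S_eld := by
  intro κ n
  refine ⟨?_, ?_⟩
  · unfold El
    rw [Finset.sum_filter, Finset.sum_filter, ← Finset.sum_sub_distrib, mul_assoc]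
    congr 1
    rw [Finset.mul_sum]
    refine Finset.sum_congr rfl fun d hd => ?_
    have hdvd := Nat.dvd_of_mem_divisors hd
    obtain ⟨e, he⟩ := hdvd
    have hmod : (d * e) % 2 = 1 := by omega
    have hd1 : d % 2 = 1 := Nat.odd_iff.1 (Nat.odd_mul.1 (Nat.odd_iff.2 hmod)).1
    have he1 : e % 2 = 1 := Nat.odd_iff.1 (Nat.odd_mul.1 (Nat.odd_iff.2 hmod)).2
    have hq : (2 * n + 1) / d = e := by
      rw [he]
      exact Nat.mul_div_cancel_left e (by omega)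
    rw [hq]
    rcases (by omega : d % 4 = 1 ∨ d % 4 = 3) with h | h
    · rw [if_pos h, if_neg (by omega), sub_zero, eld_pow_odd κ _ e he1, eld_one κ h]
      ring
    · rw [if_neg (by omega), if_pos h, zero_sub, eld_pow_odd κ _ e he1, eld_three κ h]
      ring
  · unfold El
    rw [eld_filter n 1 (by norm_num), eld_filter n 3 (by norm_num), Finset.sum_filter,
      Finset.sum_filter (fun d => d % 4 = 3), ← Finset.sum_sub_distrib]
    congr 1
    refine Finset.sum_congr rfl fun d hd => ?_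
    rw [Finset.mem_filter] at hd
    obtain ⟨hd0, hd1⟩ := hd
    obtain ⟨e, he⟩ := Nat.dvd_of_mem_divisors hd0
    have hdpos : 0 < d := by omega
    have hq : 2 * n / d = 2 * e := by
      rw [he, show 2 * (d * e) = d * (2 * e) by ring]
      exact Nat.mul_div_cancel_left _ hdpos
    have hq' : n / d = e := by
      rw [he]
      exact Nat.mul_div_cancel_left _ hdpos
    rw [hq, hq']
    rcases (by omega : d % 4 = 1 ∨ d % 4 = 3) with h | h
    · rw [if_pos h, if_neg (by omega), sub_zero, eld_pow_even, eld_m1 h]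
      simp
    · rw [if_neg (by omega), if_pos h, zero_sub, eld_pow_even, eld_m3 h]
      simp

end Pool.Agent.H981.EX
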